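import Mathlib
import Pool.Agent.MWGQ.Stmts

/-!
# Row mwgq TLW: the two letter words of TLR
-/

set_option autoImplicit false

namespace Pool.Agent.MWGQ.H95

open Pool.Agent.Helper14_MV Pool.Agent.Helper2_MV
open Pool.Agent.MWK (pre)
open Pool.Agent.MWF (gaml)
open Pool.Agent.MWGN (Nm WC WT Tau Ns nl sg nn N1 N2 K0 Kb Kc T2 gh)
open Pool.Agent.MWGQ

theorem frep (g : ℕ → List ℕ) (c a : ℕ) (h : g c = [c]) :
    (List.replicate a c).flatMap g = List.replicate a c := by
  induction a with
  | zero => rfl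
  | succ a ih =>
    rw [List.replicate_succ, List.flatMap_cons, h, ih]
    rfl

theorem pw1 (k c : ℕ) : pw k [c] = List.replicate k c := by
  unfold pw
  induction k with
  | zero => rfl
  | succ k ih =>
    rw [List.replicate_succ, List.flatten_cons, ih, List.replicate_succ]
    rfl

theorem zadd (u v : ℕ) : Z (u + v) = Z u ++ Z v := List.replicate_append_replicate.symm

theorem exj {n : ℕ} (hn : 1 ≤ n) (a p : ℕ) : ∃ j, 2 ≤ j ∧ a + j ≡ p [MOD n] := by
  refine ⟨p + a * (n - 1) + 2 * n, by omega, ?_⟩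
  obtain ⟨m, rfl⟩ : ∃ m, n = m + 1 := ⟨n - 1, by omega⟩
  have e : a + (p + a * (m + 1 - 1) + 2 * (m + 1)) = p + (m + 1) * (a + 2) := by
    rw [Nat.add_sub_cancel]
    ring
  rw [e]
  exact (Nat.modEq_iff_dvd' (by omega)).2 ⟨a + 2, by omega⟩ |>.symm

section
variable {n : ℕ} {β : FIC}

theorem p1 (hPWX : PwxStmt) (hG : Gn n β) (c : ℕ) (q : List ℕ) {a b : ℕ} (ha : 2 ≤ a)
    (hb : 2 ≤ b) (h : a ≡ b [MOD n]) :
    RR β (List.replicate a c ++ q) (List.replicate b c ++ q) := by
  have h1 := (hPWX n β hG).1 [c] a b ha hb h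
  rw [pw1, pw1] at h1
  exact h1.append (RR.refl q)

theorem p2 (hPWX : PwxStmt) (hG : Gn n β) (c : ℕ) (p u q : List ℕ) {a b : ℕ} (ha : 1 ≤ a)
    (hb : 1 ≤ b) (h : a ≡ b [MOD n]) :
    RR β (p ++ c :: (u ++ (List.replicate a c ++ q)))
      (p ++ c :: (u ++ (List.replicate b c ++ q))) := by
  have h1 := (hPWX n β hG).2.1 [c] u a b ha hb h
  rw [pw1, pw1] at h1
  have h2 := (RR.refl p).append (h1.append (RR.refl q))
  simpa only [List.append_assoc, List.cons_append, List.nil_append] using h2

theorem tail (hPWX : PwxStmt) (hCNT : CntStmt) (hG : Gn n β) (U V U' V' : List ℕ) {k k' : ℕ}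
    (hk : 1 ≤ k) (hk' : 1 ≤ k') (hc : U.count 1 = 0 ∧ V.count 1 = 0)
    (hc' : U'.count 1 = 0 ∧ V'.count 1 = 0)
    (h : RR β (U ++ 1 :: (V ++ 2 :: List.replicate k 1))
      (U' ++ 1 :: (V' ++ 2 :: List.replicate k' 1))) :
    RR β (U ++ 1 :: (V ++ [2, 1])) (U' ++ 1 :: (V' ++ [2, 1])) := by
  have hm : k ≡ k' [MOD n] := by
    have h1 := (hCNT n β hG _ _ h 1).2.2
    simp only [List.count_append, List.count_cons, List.count_replicate, hc.1, hc.2, hc'.1,
      hc'.2] at h1
    have h2 : k + 1 ≡ k' + 1 [MOD n] := by simpa using h1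
    exact Nat.ModEq.add_right_cancel' 1 h2
  obtain ⟨l, -, hl⟩ := exj hG.pos k 1
  have hl' : k' + l ≡ 1 [MOD n] := (Nat.ModEq.add_right l hm).symm.trans hl
  have h1 := h.append (RR.refl (β := β) (List.replicate l 1))
  simp only [List.append_assoc, List.cons_append, List.replicate_append_replicate] at h1
  have h2 := p2 hPWX hG 1 U (V ++ [2]) [] (a := k + l) (b := 1) (by omega) (by omega) hl
  have h3 := p2 hPWX hG 1 U' (V' ++ [2]) [] (a := k' + l) (b := 1) (by omega) (by omega) hl'
  simp only [List.append_assoc, List.cons_append, List.append_nil, List.nil_append] at h2 h3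
  exact β.trans (β.trans (h2.symm) h1) h3

end

theorem tlw (hPWX : PwxStmt) (hCNT : CntStmt) : TlwStmt := by
  intro n β hG a b k a' b' k' hk hk'
  have hn := hG.pos
  have part3 : 1 ≤ b → 1 ≤ a' → RR β (0 :: 3 :: 1 :: (Z b ++ 2 :: List.replicate k 1))
    (0 :: 3 :: (Z a' ++ 1 :: (Z b' ++ 2 :: List.replicate k' 1))) → P0 n β := by
    intro hb ha' h
    have h1 : RR β ([0, 3] ++ 1 :: (Z b ++ [2, 1])) ((0 :: 3 :: Z a') ++ 1 :: (Z b' ++ [2, 1])) :=
      tail hPWX hCNT hG [0, 3] (Z b) (0 :: 3 :: Z a') (Z b') hk hk'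
        (by simp [List.count_replicate]) (by simp [List.count_replicate]) h
    have hm : b ≡ a' + b' [MOD n] := by
      have h2 := (hCNT n β hG _ _ h1 0).2.2
      simp only [List.count_append, List.count_cons, List.count_replicate, List.count_nil] at h2
      have h3 : 1 + b ≡ 1 + (a' + b') [MOD n] := by
        have e1 : 1 + (a' + b') = a' + 1 + b' := by omega
        have e2 : 1 + b = b + 1 := by omega
        rw [e1]
        simpa using h2
      exact Nat.ModEq.add_left_cancel' 1 h3
    have claim : ∀ i : ℕ, ∃ q, 1 ≤ q ∧ i * a' + q ≡ 1 [MOD n] ∧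
        RR β [0, 3, 1, 0, 2, 1] (0 :: 3 :: (Z (i * a') ++ 1 :: (Z q ++ [2, 1]))) := by
      intro i
      induction i with
      | zero =>
        refine ⟨1, le_refl _, by rw [Nat.zero_mul], ?_⟩
        rw [Nat.zero_mul]
        exact RR.refl _
      | succ i ih =>
        obtain ⟨q, hq, hqm, hr⟩ := ih
        obtain ⟨j, hj, hjm⟩ := exj hn b q
        refine ⟨b' + j, by omega, ?_, ?_⟩
        · have e1 : (i + 1) * a' + (b' + j) = (a' + b') + (i * a' + j) := by ring
          have e2 : i * a' + (b + j) = b + (i * a' + j) := by ring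
          rw [e1]
          have h2 : (a' + b') + (i * a' + j) ≡ b + (i * a' + j) [MOD n] :=
            Nat.ModEq.add_right _ hm.symm
          refine h2.trans ?_
          rw [← e2]
          exact (Nat.ModEq.add_left _ hjm).trans hqm
        · have h2 := p2 hPWX hG 0 [] (3 :: (Z (i * a') ++ [1])) [2, 1] (a := q) (b := b + j) hq
            (by omega) hjm.symm
          have h3 := h1.sub (fun c => if c = 3 then 3 :: Z (i * a') else if c = 2 then
            Z j ++ [2] else [c])
          simp only [List.flatMap_append, List.flatMap_cons, List.flatMap_nil] at h3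
          rw [frep _ 0 b (by simp), frep _ 0 a' (by simp), frep _ 0 b' (by simp)] at h3
          have e3 : (Z (i * a') ++ Z a' : List ℕ) = Z ((i + 1) * a') := by
            rw [Nat.add_mul, one_mul, List.replicate_append_replicate]
          have h4 : RR β (0 :: 3 :: (Z (i * a') ++ 1 :: (Z (b + j) ++ [2, 1])))
              (0 :: 3 :: (Z ((i + 1) * a') ++ 1 :: (Z (b' + j) ++ [2, 1]))) := by
            rw [← e3, zadd b j, zadd b' j]
            simpa [-List.replicate_append_replicate] using h3
          have h2' : RR β (0 :: 3 :: (Z (i * a') ++ 1 :: (Z q ++ [2, 1])))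
              (0 :: 3 :: (Z (i * a') ++ 1 :: (Z (b + j) ++ [2, 1]))) := by
            simpa using h2
          exact β.trans (β.trans hr h2') h4
    obtain ⟨q, hq, hqm, hr⟩ := claim n
    have hq1 : q ≡ 1 [MOD n] := by
      have h2 : n * a' + q ≡ 0 + q [MOD n] :=
        Nat.ModEq.add_right q ((Nat.modEq_zero_iff_dvd).2 (Dvd.intro _ rfl))
      rw [Nat.zero_add] at h2
      exact h2.symm.trans hqm
    have hna : n * a' ≡ n [MOD n] :=
      ((Nat.modEq_zero_iff_dvd).2 (Dvd.intro _ rfl)).trans
        ((Nat.modEq_zero_iff_dvd).2 (dvd_refl _)).symm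
    have h2 := p2 hPWX hG 0 [] (3 :: (Z (n * a') ++ [1])) [2, 1] (a := q) (b := 1) hq
      (by omega) hq1
    have h3 := p2 hPWX hG 0 [] [3] [1, 0, 2, 1] (a := n * a') (b := n)
      (Nat.mul_pos hn ha') hn hna
    have h4 : RR β [0, 3, 1, 0, 2, 1] (0 :: 3 :: (Z n ++ [1, 0, 2, 1])) := by
      have h2' : RR β (0 :: 3 :: (Z (n * a') ++ 1 :: (Z q ++ [2, 1])))
          (0 :: 3 :: (Z (n * a') ++ [1, 0, 2, 1])) := by
        simpa using h2
      have h3' : RR β (0 :: 3 :: (Z (n * a') ++ [1, 0, 2, 1]))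
          (0 :: 3 :: (Z n ++ [1, 0, 2, 1])) := by
        simpa using h3
      exact β.trans (β.trans hr h2') h3'
    have h5 := h4.sub (fun c => if c = 3 then [2] else if c = 2 then [3] else [c])
    simp only [List.flatMap_append, List.flatMap_cons, List.flatMap_nil] at h5
    rw [frep _ 0 n (by simp)] at h5
    unfold P0
    simpa using h5
  refine ⟨?_, ?_, part3⟩
  · intro ha hb' h
    have h1 : RR β (Z a ++ 1 :: ([] ++ [2, 1])) (Z a' ++ 1 :: (Z b' ++ [2, 1])) :=
      tail hPWX hCNT hG (Z a) [] (Z a') (Z b') hk hk'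
        (by simp [List.count_replicate]) (by simp [List.count_replicate]) h
    have hm : a ≡ a' + b' [MOD n] := by
      have h2 := (hCNT n β hG _ _ h1 0).2.2
      simp only [List.count_append, List.count_cons, List.count_replicate, List.count_nil] at h2
      simpa using h2
    have claim : ∀ i : ℕ, ∃ p, 2 ≤ p ∧ p + i * b' ≡ 2 [MOD n] ∧
        RR β [0, 0, 1, 2, 1] (Z p ++ 1 :: (Z (i * b') ++ [2, 1])) := by
      intro i
      induction i with
      | zero =>
        refine ⟨2, le_refl _, by rw [Nat.zero_mul], ?_⟩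
        rw [Nat.zero_mul]
        exact RR.refl _
      | succ i ih =>
        obtain ⟨p, hp, hpm, hr⟩ := ih
        obtain ⟨j, hj, hjm⟩ := exj hn a p
        refine ⟨j + a', by omega, ?_, ?_⟩
        · have e1 : j + a' + (i + 1) * b' = (a' + b') + (j + i * b') := by ring
          have e2 : (a + j) + i * b' = a + (j + i * b') := by ring
          rw [e1]
          have h2 : (a' + b') + (j + i * b') ≡ a + (j + i * b') [MOD n] :=
            Nat.ModEq.add_right _ hm.symm
          refine h2.trans ?_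
          rw [← e2]
          exact (Nat.ModEq.add_right _ hjm).trans hpm
        · have h2 := p1 hPWX hG 0 (1 :: (Z (i * b') ++ [2, 1])) (a := p) (b := j + a) hp
            (by omega) (by rw [Nat.add_comm j a]; exact hjm.symm)
          have h3 := (RR.refl (β := β) (Z j)).append
            (h1.sub (fun c => if c = 2 then Z (i * b') ++ [2] else [c]))
          simp only [List.flatMap_append, List.flatMap_cons, List.flatMap_nil] at h3
          rw [frep _ 0 a (by simp), frep _ 0 a' (by simp), frep _ 0 b' (by simp)] at h3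
          have e3 : (Z b' ++ Z (i * b') : List ℕ) = Z ((i + 1) * b') := by
            rw [List.replicate_append_replicate]
            congr 1
            ring
          have h4 : RR β (Z (j + a) ++ 1 :: (Z (i * b') ++ [2, 1]))
              (Z (j + a') ++ 1 :: (Z ((i + 1) * b') ++ [2, 1])) := by
            rw [← e3, zadd j a, zadd j a']
            simpa [-List.replicate_append_replicate] using h3
          exact β.trans (β.trans hr h2) h4
    obtain ⟨p, hp, hpm, hr⟩ := claim n
    have hp1 : p ≡ 2 [MOD n] := by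
      have h2 : p + n * b' ≡ p + 0 [MOD n] :=
        Nat.ModEq.add_left p ((Nat.modEq_zero_iff_dvd).2 (Dvd.intro _ rfl))
      rw [Nat.add_zero] at h2
      exact h2.symm.trans hpm
    have hnb : n * b' ≡ n [MOD n] :=
      ((Nat.modEq_zero_iff_dvd).2 (Dvd.intro _ rfl)).trans
        ((Nat.modEq_zero_iff_dvd).2 (dvd_refl _)).symm
    have h2 := p1 hPWX hG 0 (1 :: (Z (n * b') ++ [2, 1])) (a := p) (b := 2) hp (le_refl _) hp1
    have h3 := p2 hPWX hG 0 [0] [1] [2, 1] (a := n * b') (b := n)
      (Nat.mul_pos hn hb') hn hnb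
    unfold A0
    exact β.trans (β.trans hr h2) h3
  · intro hb ha' _ h
    exact part3 (by omega) ha' ((RR.refl (β := β) [0, 3]).append h)

end Pool.Agent.MWGQ.H95
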