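import Mathlib
import Pool.Agent.MWGQ.StmtsC

/-!
# Row mwgq FSP: one filled gap fills all
-/

set_option autoImplicit false

namespace Pool.Agent.MWGQ.H95

open Pool.Agent.Helper14_MV Pool.Agent.Helper2_MV
open Pool.Agent.MWK (pre)
open Pool.Agent.MWF (gaml)
open Pool.Agent.MWGN (Nm WC WT Tau Ns nl sg nn gh Ins WR Nr nr NF tw KF Kx Ky)
open Pool.Agent.MWGQ

theorem bs_split (n : ℕ) (L C : ℕ → List ℕ) (X : List ℕ) (s : ℕ → Bool) (i k : ℕ) :
    bs n L C X s (i + (k + 1)) = bs n L C X s i ++ (L i ++ (pw (n + 1) (C i) ++
      ((if s i then pw (2 * n) X else []) ++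
        bs n (fun j => L (i + (j + 1))) (fun j => C (i + (j + 1))) X
          (fun j => s (i + (j + 1))) k))) := by
  unfold bs
  rw [List.range_add, List.flatMap_append, List.range_succ_eq_map, List.map_cons,
    List.flatMap_cons, List.map_map, List.flatMap_map]
  simp only [Nat.add_zero, List.append_assoc, Function.comp, Nat.succ_eq_add_one]

theorem bs_congr (n : ℕ) (L C : ℕ → List ℕ) (X : List ℕ) (s s' : ℕ → Bool) (r : ℕ)
    (h : ∀ i < r, s i = s' i) : bs n L C X s r = bs n L C X s' r := by
  unfold bs
  refine List.flatMap_congr (fun i hi => ?_)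
  rw [h i (List.mem_range.1 hi)]

theorem rctx {β : FIC} (p q : List ℕ) {u v : List ℕ} (h : RR β u v) :
    RR β (p ++ (u ++ q)) (p ++ (v ++ q)) :=
  (RR.refl p).append (h.append (RR.refl q))

theorem fsp (hPWX : PwxStmt) (hTLF : Pool.Agent.MWGN.TlfStmt) : FspStmt := by
  intro n β hG r hFB
  have hn := hG.pos
  have hcom : ∀ X C : List ℕ,
      RR β (pw (2 * n) X ++ pw (n + 1) C) (pw (n + 1) C ++ pw (2 * n) X) :=
    fun X C => (hPWX n β hG).2.2 X C (2 * n) (n + 1) (by omega) (by omega)
  have key : ∀ m ≤ r, ∀ τ, Tau τ m → ∀ s : ℕ → Bool, (m = r → ∃ i < m, s i = true) →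
      ∀ (X B : List ℕ) (S L C : ℕ → List ℕ),
        RR β (ws n X B S L C s τ m) (ws n X B S L C (fun _ => true) τ m) := by
    intro m
    induction m using Nat.strong_induction_on with
    | _ m IH =>
      intro hm τ hτ s hs X B S L C
      by_cases hex : ∃ i < m, s i = true
      · obtain ⟨i, hi, hsi⟩ := hex
        obtain ⟨k, rfl⟩ : ∃ k, m = i + (k + 1) := ⟨m - 1 - i, by omega⟩
        obtain ⟨E, hE⟩ : ∃ E, E = pw (2 * n) X := ⟨_, rfl⟩
        obtain ⟨Ci, hCi⟩ : ∃ Ci, Ci = pw (n + 1) (C i) := ⟨_, rfl⟩
        obtain ⟨tl, htl⟩ : ∃ tl, tl = τ.flatMap (fun i => S i ++ L i) := ⟨_, rfl⟩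
        obtain ⟨L', hL'⟩ : ∃ L' : ℕ → List ℕ, L' = fun j => L (i + (j + 1)) := ⟨_, rfl⟩
        obtain ⟨C', hC'⟩ : ∃ C' : ℕ → List ℕ, C' = fun j => C (i + (j + 1)) := ⟨_, rfl⟩
        obtain ⟨s', hs'⟩ : ∃ s' : ℕ → Bool, s' = fun j => s (i + (j + 1)) := ⟨_, rfl⟩
        have hleft : ∀ B' : List ℕ,
            RR β (E ++ (bs n L C X s i ++ (L i ++ (E ++ (B' ++ tl)))))
              (E ++ (bs n L C X (fun _ => true) i ++ (L i ++ (E ++ (B' ++ tl))))) := by
          intro B'
          obtain ⟨S', R, hSR⟩ := hTLF τ S L (fun j => decide (j ≤ i)) hτ.1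
          have hT : Tau (τ.filter (fun j => decide (j ≤ i))) i := by
            refine ⟨hτ.1.filter _, fun j => ?_⟩
            rw [List.mem_filter, hτ.2, decide_eq_true_iff]
            omega
          have h := (IH i (by omega) (by omega) _ hT s (fun h => by omega) X B' S' L C).append
            (RR.refl (β := β) R)
          unfold ws at h
          rw [htl, hSR, hE]
          simpa only [List.append_assoc] using h
        have hright : RR β (E ++ (bs n L' C' X s' k ++ (L' k ++ (E ++ (B ++ tl)))))
            (E ++ (bs n L' C' X (fun _ => true) k ++ (L' k ++ (E ++ (B ++ tl))))) := by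
          obtain ⟨S', R, hSR⟩ := hTLF τ S L (fun j => decide (i < j)) hτ.1
          have hmem : ∀ j, j ∈ τ.filter (fun j => decide (i < j)) ↔ j ≤ i + (k + 1) ∧ i < j := by
            intro j
            rw [List.mem_filter, hτ.2, decide_eq_true_iff]
          have hT : Tau ((τ.filter (fun j => decide (i < j))).map (fun j => j - (i + 1))) k := by
            constructor
            · refine List.Nodup.map_on ?_ (hτ.1.filter _)
              intro a ha b hb hab
              have h1 := (hmem a).1 ha
              have h2 := (hmem b).1 hb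
              have hab' : a - (i + 1) = b - (i + 1) := hab
              omega
            · intro j
              rw [List.mem_map]
              constructor
              · rintro ⟨a, ha, rfl⟩
                have h1 := (hmem a).1 ha
                omega
              · intro hj
                exact ⟨i + (j + 1), (hmem _).2 (by omega), by omega⟩
          have hfm : (τ.filter (fun j => decide (i < j))).flatMap (fun j => S' j ++ L j) =
              ((τ.filter (fun j => decide (i < j))).map (fun j => j - (i + 1))).flatMap
                (fun j => S' (i + (j + 1)) ++ L' j) := by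
            rw [List.flatMap_map]
            refine List.flatMap_congr (fun j hj => ?_)
            have h1 := (hmem j).1 hj
            have h2 : i + (j - (i + 1) + 1) = j := by omega
            rw [hL']
            show S' j ++ L j = S' (i + (j - (i + 1) + 1)) ++ L (i + (j - (i + 1) + 1))
            rw [h2]
          have h := (IH k (by omega) (by omega) _ hT s' (fun h => by omega) X B
            (fun j => S' (i + (j + 1))) L' C').append (RR.refl (β := β) R)
          unfold ws at h
          rw [htl, hSR, hfm, hE]
          simpa only [List.append_assoc] using h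
        have e1 : ws n X B S L C s τ (i + (k + 1)) = E ++ (bs n L C X s i ++ (L i ++ (Ci ++ (E ++
            (bs n L' C' X s' k ++ (L' k ++ (E ++ (B ++ tl)))))))) := by
          unfold ws
          rw [bs_split, if_pos hsi, hE, hCi, hL', hC', hs', htl]
          simp only [List.append_assoc]
        have e2 : ws n X B S L C (fun _ => true) τ (i + (k + 1)) =
            E ++ (bs n L C X (fun _ => true) i ++ (L i ++ (Ci ++ (E ++
              (bs n L' C' X (fun _ => true) k ++ (L' k ++ (E ++ (B ++ tl)))))))) := by
          unfold ws
          rw [bs_split, if_pos rfl, hE, hCi, hL', hC', htl]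
          simp only [List.append_assoc]
        rw [e1, e2]
        have hc : RR β (Ci ++ E) (E ++ Ci) := by
          rw [hCi, hE]
          exact (hcom X (C i)).symm
        have c1 := rctx (E ++ (bs n L C X s i ++ L i))
          (bs n L' C' X s' k ++ (L' k ++ (E ++ (B ++ tl)))) hc
        have c2 := hleft (Ci ++ (bs n L' C' X s' k ++ (L' k ++ (E ++ B))))
        have c3 := rctx (E ++ (bs n L C X (fun _ => true) i ++ L i))
          (bs n L' C' X s' k ++ (L' k ++ (E ++ (B ++ tl)))) hc.symm
        have c4 := rctx (E ++ (bs n L C X (fun _ => true) i ++ (L i ++ Ci))) [] hright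
        simp only [List.append_assoc, List.append_nil] at c1 c2 c3 c4
        exact β.trans (β.trans (β.trans c1 c2) c3) c4
      · have hmr : m < r := by
          rcases Nat.lt_or_ge m r with h | h
          · exact h
          · exact absurd (hs (by omega)) hex
        have h1 := hFB m hmr τ hτ X B S L C
        have h2 : bs n L C X s m = bs n L C X (fun _ => false) m := by
          refine bs_congr n L C X _ _ m (fun i hi => ?_)
          by_contra h3
          exact hex ⟨i, hi, by simpa using h3⟩
        have h3 : ws n X B S L C s τ m = ws n X B S L C (fun _ => false) τ m := by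
          unfold ws
          rw [h2]
        rw [h3]
        exact h1
  intro τ hτ s hs X B S L C
  exact key r (le_refl r) τ hτ s (fun _ => hs) X B S L C

end Pool.Agent.MWGQ.H95
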